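import Mathlib
import Pool.Agent.H.MP_4b601f_co.A

namespace Pool.Agent.Results.MP_4b601f_co.Yes

open Finset Filter Classical Pool.Agent.H.MP_4b601f_co

/-- Rotors and the position of the particle (`none` is the root).  The non-root vertices are
words: `[]` is the child of the root and `k :: v` is the child number `k + 1` of `v`. -/
abbrev State := (List ℕ → ℕ) × Option (List ℕ)

def parent : List ℕ → Option (List ℕ)
  | [] => none
  | _ :: v => some v

/-- the vertex a rotor with value `x` at `v` points to -/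
def target (v : List ℕ) (x : ℕ) : Option (List ℕ) := if x = 0 then parent v else some ((x - 1) :: v)

/-- one step of rotor walk; the particle stops at the root -/
def step (b : List ℕ → ℕ) : State → State
  | (r, none) => (r, none)
  | (r, some v) => (Function.update r v ((r v + 1) % (b v + 1)), target v ((r v + 1) % (b v + 1)))

def walk (b r : List ℕ → ℕ) (n : ℕ) : State := (step b)^[n] (r, some [])

def Escapes (b r : List ℕ → ℕ) : Prop := ∀ n, (walk b r n).2 ≠ none

/-- the limiting rotors left by one particle -/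
noncomputable def next (b r : List ℕ → ℕ) : List ℕ → ℕ :=
  fun v => limUnder atTop fun n => (walk b r n).1 v

/-- the escape sequence: particle number `n + 1` escapes -/
def esc (b r : List ℕ → ℕ) (n : ℕ) : Prop := Escapes b ((next b)^[n] r)

def gstep (b : List ℕ → ℕ) : State → State
  | (ρ, none) => (ρ, none)
  | (ρ, some v) => (Function.update ρ v (ρ v + 1), target v ((ρ v + 1) % (b v + 1)))

def red (b ρ : List ℕ → ℕ) : List ℕ → ℕ := fun v => ρ v % (b v + 1)

lemma walk_red (b ρ : List ℕ → ℕ) (n : ℕ) : walk b (red b ρ) n =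
    (red b ((gstep b)^[n] (ρ, some [])).1, ((gstep b)^[n] (ρ, some [])).2) := by
  induction n with
  | zero => rfl
  | succ n ih =>
    rw [walk, Function.iterate_succ_apply', Function.iterate_succ_apply', ← walk, ih]
    rcases (gstep b)^[n] (ρ, some []) with ⟨σ, _ | v⟩
    · rfl
    · simp only [step, gstep, red, Nat.mod_add_mod]
      congr 1
      funext w
      by_cases h : w = v
      · subst h; simp [red]
      · simp [red, h]

lemma cnt_eq_zero {p : ℕ → Prop} {n : ℕ} (h : ∀ x < n, ¬ p x) : cnt p n = 0 := by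
  induction n with
  | zero => exact cnt_zero p
  | succ n ih => rw [cnt_neg (h n (by omega)), ih fun x hx => h x (by omega)]

section loc
variable {b r : ℕ} {e : ℕ → Prop} {E : ℕ → ℕ → Prop}

noncomputable def ent (b r i : ℕ) : ℕ → ℕ := cnt fun x => r < x ∧ x % (b + 1) = i

def term (b r : ℕ) (E : ℕ → ℕ → Prop) (u : ℕ) : Prop :=
  r < u ∧ (u % (b + 1) = 0 ∨ E (u % (b + 1)) (ent b r (u % (b + 1)) u))

lemma lt_iff (hr : r ≤ b) {i : ℕ} (t : ℕ) : r < t * (b + 1) + i ↔ δ r i ≤ t := by
  unfold δ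
  rcases t with _ | t
  · split_ifs <;> omega
  · have : r < (t + 1) * (b + 1) := by nlinarith
    split_ifs <;> omega

lemma md {i : ℕ} (h : i ≤ b) (t : ℕ) : (t * (b + 1) + i) % (b + 1) = i := by
  rw [add_comm, Nat.add_mul_mod_self_right, Nat.mod_eq_of_lt (by omega)]

lemma ent_eq (hr : r ≤ b) {i : ℕ} (h : i ≤ b) (t : ℕ) :
    ent b r i (t * (b + 1) + i) = t - δ r i := by
  induction t with
  | zero =>
    rw [Nat.zero_sub, ent]
    apply cnt_eq_zero
    rintro x hx ⟨-, k⟩
    simp only [zero_mul, zero_add] at hx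
    rw [Nat.mod_eq_of_lt (by omega)] at k; omega
  | succ t ih =>
    have e : cnt (fun k => r < t * (b + 1) + i + 1 + k ∧ (t * (b + 1) + i + 1 + k) % (b + 1) = i) b
        = 0 := by
      apply cnt_eq_zero
      rintro x hx ⟨-, k⟩
      by_cases c : i + 1 + x ≤ b
      · rw [add_assoc, add_assoc, ← add_assoc i, md c] at k; omega
      · rw [show t * (b + 1) + i + 1 + x = (t + 1) * (b + 1) + (i + x - b) by
          rw [add_mul]; omega, md (by omega)] at k
        omega
    rw [show (t + 1) * (b + 1) + i = t * (b + 1) + i + 1 + b by ring, ent, cnt_add, e]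
    by_cases c : δ r i ≤ t
    · rw [cnt_pos (p := fun x => r < x ∧ x % (b + 1) = i) ⟨(lt_iff hr t).2 c, md h t⟩]
      unfold ent at ih; omega
    · rw [cnt_neg (p := fun x => r < x ∧ x % (b + 1) = i) fun k => c ((lt_iff hr t).1 k.1)]
      unfold ent at ih
      have : δ r i ≤ 1 := by unfold δ; split_ifs <;> omega
      omega

lemma term_mul (hr : r ≤ b) (t : ℕ) : term b r E ((t + 1) * (b + 1)) :=
  ⟨by nlinarith, Or.inl (Nat.mul_mod_left _ _)⟩

lemma cnt_term (hr : r ≤ b) (t : ℕ) :
    cnt (term b r E) ((t + 1) * (b + 1)) = Q (fun t => #(Cs b r E t)) t := by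
  have k : ∀ t x, x ≠ 0 → (x < b + 1 ∧ term b r E (t * (b + 1) + x) ↔ x ∈ Cs b r E t) := by
    intro t x hx
    simp only [Cs, mem_filter, mem_Icc, term]
    by_cases c : x ≤ b
    · rw [md c, ent_eq hr c, lt_iff hr]
      simp only [hx, false_or, c, Nat.lt_succ_of_le c, Nat.one_le_iff_ne_zero, ne_eq,
        not_false_eq_true, true_and]
    · simp only [c, and_false, false_and, iff_false]; omega
  have n0 : ∀ t, 0 ∉ Cs b r E t := fun t => by simp [Cs]
  induction t with
  | zero =>
    rw [Q, P_zero, zero_add, one_mul, zero_add, cnt]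
    congr 1; ext x
    by_cases c : x = 0
    · subst c; exact iff_of_false (fun h => (mem_filter.1 h).2.1.ne_zero rfl) (n0 _)
    · rw [← k 0 x c]; simp
  | succ t ih =>
    rw [add_mul (t + 1), one_mul, cnt_add, ih, Q.eq_1 _ (t + 1), P_succ, add_assoc, add_comm 1,
      ← card_insert_of_notMem (n0 _), cnt]
    congr 2; ext x
    by_cases c : x = 0
    · subst c; simpa using term_mul hr t
    · rw [mem_insert, ← k _ x c]; simp [c]

lemma low (hr : r ≤ b) {u : ℕ} (h : u % (b + 1) ≠ 0) :
    P (fun t => #(Cs b r E t)) (u / (b + 1)) ≤ cnt (term b r E) u := by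
  have := Nat.div_add_mod' u (b + 1)
  rcases h' : u / (b + 1) with _ | t
  · rw [P_zero]; omega
  · rw [P_succ, ← cnt_term hr]
    exact cnt_lt (term_mul hr t) (by rw [h'] at this; omega)

lemma send (hr : r ≤ b) (h : Rec b r e E) {u : ℕ} (hu : term b r E u) :
    e (cnt (term b r E) u) ↔ u % (b + 1) ≠ 0 := by
  have d := Nat.div_add_mod' u (b + 1)
  constructor
  · intro k c
    rcases h' : u / (b + 1) with _ | t
    · have := hu.1; rw [h'] at d; omega
    · rw [h', c, add_zero] at d
      exact (h _).2 ⟨t, by rw [← d, cnt_term hr]⟩ k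
  · intro c
    refine h.one (low hr c) ?_
    rw [← cnt_term hr]
    have := Nat.mod_lt u (Nat.add_one_pos b)
    exact cnt_lt hu (by rw [add_mul]; omega)

lemma reduce (hr : r ≤ b) (h : Rec b r e E) {u : ℕ} (hu : r < u) (c : u % (b + 1) ≠ 0) :
    ent b r (u % (b + 1)) u ≤ cnt (term b r E) u ∧
    (ent b r (u % (b + 1)) u = cnt (term b r E) u → ¬ e (cnt (term b r E) u) →
      ¬ e 0 ∧ r < u % (b + 1)) := by
  have d := Nat.div_add_mod' u (b + 1)
  have l := low (E := E) hr c
  have m := Nat.mod_lt u (Nat.add_one_pos b)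
  have a := ent_eq hr (i := u % (b + 1)) (by omega) (u / (b + 1))
  have a2 := (lt_iff hr (i := u % (b + 1)) (u / (b + 1))).1 (by omega)
  rw [d] at a
  unfold P at l
  refine ⟨by omega, fun k k' => ⟨?_, ?_⟩⟩
  · rcases h' : u / (b + 1) with _ | t
    · rwa [show cnt (term b r E) u = 0 by omega] at k'
    · rw [h', sum_range_succ'] at l
      exact (h 0).2 ⟨0, by rw [Q, P_zero]; beta_reduce; omega⟩
  · unfold δ at a a2; split_ifs at a a2 <;> omega

end loc

variable {b r : List ℕ → ℕ} {d : List ℕ → ℕ → Prop}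

abbrev tm (b r : List ℕ → ℕ) (d : List ℕ → ℕ → Prop) (w : List ℕ) : ℕ → Prop :=
  term (b w) (r w) fun i => d ((i - 1) :: w)

noncomputable def nn (b r : List ℕ → ℕ) (m : ℕ) (ρ : List ℕ → ℕ) : List ℕ → ℕ
  | [] => m
  | k :: v => ent (b v) (r v) (k + 1) (ρ v + 1)

def Good (b r : List ℕ → ℕ) (d : List ℕ → ℕ → Prop) (m : ℕ) (ρ : List ℕ → ℕ) : Prop :=
  ∀ w, r w ≤ ρ w ∧ cnt (tm b r d w) (ρ w + 1) = nn b r m ρ w

def Inv (b r : List ℕ → ℕ) (d : List ℕ → ℕ → Prop) (m : ℕ) : State → Prop
  | (ρ, none) => Good b r d (m + 1) ρ ∧ ¬ d [] m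
  | (ρ, some p) => (∀ w, r w ≤ ρ w) ∧
      (∀ w, ¬ w <:+ p → cnt (tm b r d w) (ρ w + 1) = nn b r (m + 1) ρ w) ∧
      cnt (tm b r d p) (ρ p + 1) + 1 = nn b r (m + 1) ρ p ∧
      ∀ k w, k :: w <:+ p → r w < ρ w ∧ ρ w % (b w + 1) = k + 1 ∧
        cnt (tm b r d w) (ρ w) + 1 = nn b r (m + 1) ρ w

lemma nn_upd (m : ℕ) (ρ : List ℕ → ℕ) (p w : List ℕ)
    (h : ∀ k, w = k :: p → (ρ p + 1) % (b p + 1) ≠ k + 1) :
    nn b r m (Function.update ρ p (ρ p + 1)) w = nn b r m ρ w := by
  rcases w with _ | ⟨k, v⟩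
  · rfl
  by_cases c : v = p
  · subst c
    simp only [nn, Function.update_self, ent]
    exact cnt_neg fun a => h k rfl a.2
  · simp [nn, c]

lemma inv_step (hr : ∀ w, r w ≤ b w) (h : Sys b r d) {m : ℕ} {s : State} (hs : Inv b r d m s) :
    Inv b r d m (gstep b s) := by
  rcases s with ⟨ρ, _ | p⟩
  · exact hs
  obtain ⟨h1, h2, h3, h4⟩ := hs
  have u1 : ∀ w, r w ≤ Function.update ρ p (ρ p + 1) w := fun w => by
    by_cases c : w = p
    · subst c; simp; exact (h1 w).trans (Nat.le_succ _)
    · simp [c, h1]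
  have lp : r p < ρ p + 1 := Nat.lt_succ_of_le (h1 p)
  have sf : ∀ w, w <:+ p → nn b r (m + 1) (Function.update ρ p (ρ p + 1)) w = nn b r (m + 1) ρ w :=
    fun w hw => nn_upd _ _ _ _ fun k a => by have := hw.length_le; simp [a] at this
  by_cases c : (ρ p + 1) % (b p + 1) = 0
  · have t : tm b r d p (ρ p + 1) := ⟨lp, Or.inl c⟩
    have all : ∀ w, nn b r (m + 1) (Function.update ρ p (ρ p + 1)) w = nn b r (m + 1) ρ w :=
      fun w => nn_upd _ _ _ _ fun k _ => by omega
    have dp := send (hr p) (h.1 p) t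
    have cp : ∀ w, (w = p ∨ ¬ w <:+ p) → cnt (tm b r d w) (Function.update ρ p (ρ p + 1) w + 1) =
        nn b r (m + 1) (Function.update ρ p (ρ p + 1)) w := by
      intro w hw
      rw [all]
      by_cases a : w = p
      · subst a; rw [Function.update_self, cnt_pos t, h3]
      · rw [Function.update_of_ne a, h2 w (hw.resolve_left a)]
    simp only [gstep, c, target, if_true]
    rcases p with _ | ⟨k, v⟩
    · refine ⟨fun w => ⟨u1 w, cp w ?_⟩, ?_⟩
      · simp only [List.suffix_nil]; tauto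
      · simp only [nn, add_left_inj] at h3
        rw [← h3, dp]; omega
    · obtain ⟨a1, a2, a3⟩ := h4 k v (List.suffix_refl _)
      have nv : v ≠ k :: v := (List.cons_ne_self k v).symm
      refine ⟨u1, fun w hw => cp w ?_, ?_, fun j w hw => ?_⟩
      · rw [List.suffix_cons_iff]; tauto
      · rw [all, Function.update_of_ne nv, cnt_neg, a3]
        rintro ⟨-, a | a⟩
        · omega
        · simp only [nn, ent] at h3
          rw [cnt_pos (p := fun x => r v < x ∧ x % (b v + 1) = k + 1) ⟨a1, a2⟩, add_left_inj] at h3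
          rw [a2, ent, ← h3] at a
          exact dp.1 a c
      · have : w ≠ k :: v := fun a => by have := hw.length_le; simp [a] at this
        rw [all, Function.update_of_ne this]
        exact h4 j w (hw.trans (List.suffix_cons _ _))
  · obtain ⟨k, hk⟩ : ∃ k, (ρ p + 1) % (b p + 1) = k + 1 := ⟨_, (Nat.succ_pred_eq_of_ne_zero c).symm⟩
    simp only [gstep, hk, target, Nat.succ_ne_zero, if_false, Nat.add_sub_cancel]
    have ns : ¬ k :: p <:+ p := fun a => by have := a.length_le; simp at this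
    refine ⟨u1, fun w hw => ?_, ?_, fun j w hw => ?_⟩
    · rw [List.suffix_cons_iff, not_or] at hw
      have : w ≠ p := fun a => hw.2 (a ▸ List.suffix_refl _)
      rw [Function.update_of_ne this, h2 w hw.2, nn_upd]
      rintro j rfl a
      exact hw.1 (by rw [show j = k by omega])
    · rw [Function.update_of_ne (List.cons_ne_self k p), h2 _ ns]
      simp only [nn, Function.update_self, ent]
      rw [cnt_pos (p := fun x => r p < x ∧ x % (b p + 1) = k + 1) ⟨lp, hk⟩]
    · rcases List.suffix_cons_iff.1 hw with a | a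
      · obtain ⟨rfl, rfl⟩ := List.cons.inj a
        rw [Function.update_self, sf _ (List.suffix_refl _)]
        exact ⟨lp, hk, h3⟩
      · have : w ≠ p := fun e => by have := a.length_le; simp [e] at this
        rw [Function.update_of_ne this, sf _ ((List.suffix_cons _ _).trans a)]
        exact h4 j w a

lemma inv_le {m : ℕ} {s : State} (hs : Inv b r d m s) (w : List ℕ) :
    r w ≤ s.1 w ∧ cnt (tm b r d w) (s.1 w) ≤ nn b r (m + 1) s.1 w := by
  have st := cnt_step (tm b r d w) (s.1 w)
  rcases s with ⟨ρ, _ | p⟩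
  · have := hs.1 w; simp only at *; omega
  obtain ⟨h1, h2, h3, h4⟩ := hs
  refine ⟨h1 w, ?_⟩
  simp only at *
  by_cases c : w <:+ p
  · obtain ⟨x, rfl⟩ := c
    rcases List.eq_nil_or_concat x with rfl | ⟨y, k, rfl⟩
    · simp only [List.nil_append] at h3; omega
    · have := (h4 k w ⟨y, by simp⟩).2.2; omega
  · have := h2 w c; omega

lemma ev_const {f : ℕ → ℕ} (h : Monotone f) {X : ℕ} (hb : ∀ n, f n ≤ X) :
    ∃ y, ∀ᶠ n in atTop, f n = y := by
  obtain ⟨y, ⟨n, rfl⟩, hy⟩ := Set.Finite.exists_maximal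
    ((Set.finite_Iic X).subset (s := Set.Iic X) (t := Set.range f) (by rintro _ ⟨n, rfl⟩; exact hb n))
    (Set.range_nonempty f)
  exact ⟨f n, (eventually_ge_atTop n).mono fun k hk => le_antisymm (hy ⟨k, rfl⟩ (h hk)) (h hk)⟩

lemma one_particle (hr : ∀ w, r w ≤ b w) (h : Sys b r d) {m : ℕ} {ρ : List ℕ → ℕ}
    (hρ : Good b r d m ρ) : (Escapes b (red b ρ) ↔ d [] m) ∧
      ∃ σ, next b (red b ρ) = red b σ ∧ Good b r d (m + 1) σ := by
  let s : ℕ → State := fun n => (gstep b)^[n] (ρ, some [])
  have ss : ∀ n, s (n + 1) = gstep b (s n) := fun n => Function.iterate_succ_apply' _ _ _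
  have inv : ∀ n, Inv b r d m (s n) := by
    intro n
    induction n with
    | zero =>
      refine ⟨fun w => (hρ w).1, fun w hw => ?_, by rw [(hρ []).2]; rfl, fun k w hw => by simp at hw⟩
      rcases w with _ | ⟨k, v⟩
      · simp at hw
      · exact (hρ _).2
    | succ n ih => rw [ss]; exact inv_step hr h ih
  have up : ∀ n w, (s n).1 w ≤ (s (n + 1)).1 w ∧ ((s n).2 = some w → (s n).1 w < (s (n + 1)).1 w) := by
    intro n w
    rw [ss]
    rcases s n with ⟨τ, _ | p⟩
    · simp [gstep]
    · by_cases c : w = p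
      · subst c; simp [gstep]
      · simp [gstep, c, Ne.symm c]
  have bd : ∀ w, ∃ X, ∀ n, (s n).1 w ≤ X := by
    have k : ∀ w N, (∀ n, nn b r (m + 1) (s n).1 w ≤ N) → ∃ X, ∀ n, (s n).1 w ≤ X := by
      intro w N hN
      obtain ⟨X, hX⟩ := cnt_unb (p := tm b r d w)
        (fun N => ⟨_, by nlinarith, term_mul (hr w) N⟩) N
      refine ⟨X, fun n => ?_⟩
      by_contra c
      have := cnt_mono (tm b r d w) (not_le.1 c).le
      have := (inv_le (inv n) w).2
      have := hN n
      omega
    intro w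
    induction w with
    | nil => exact k [] (m + 1) fun n => le_rfl
    | cons j v ih =>
      obtain ⟨X, hX⟩ := ih
      exact k _ _ fun n => cnt_mono _ (Nat.succ_le_succ (hX n))
  have cv : ∀ w, ∃ y, ∀ᶠ n in atTop, (s n).1 w = y := fun w =>
    ev_const (monotone_nat_of_le_succ fun n => (up n w).1) (bd w).choose_spec
  choose σ hσ using cv
  have nx : next b (red b ρ) = red b σ := by
    funext w
    refine Tendsto.limUnder_eq (tendsto_const_nhds.congr' ((hσ w).mono fun n hn => ?_))
    beta_reduce; rw [walk_red]; simp only [red]; rw [← hn]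
  have en : ∀ w, ∀ᶠ n in atTop, nn b r (m + 1) (s n).1 w = nn b r (m + 1) σ w := by
    intro w
    rcases w with _ | ⟨k, v⟩
    · exact Eventually.of_forall fun _ => rfl
    · exact (hσ v).mono fun n hn => by simp only [nn, hn]
  have le : ∀ w, r w ≤ σ w := fun w => by
    obtain ⟨n, hn⟩ := (hσ w).exists
    rw [← hn]; exact (inv_le (inv n) w).1
  by_cases c : Escapes b (red b ρ)
  swap
  · refine ⟨?_, σ, nx, fun w => ⟨le w, ?_⟩⟩
    all_goals
      simp only [Escapes, walk_red, not_forall, not_not] at c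
      obtain ⟨n, hn⟩ := c
      have st : ∀ k, (s (n + k)).2 = none := by
        intro k
        induction k with
        | zero => exact hn
        | succ k ih =>
          rw [← add_assoc, ss]
          revert ih
          rcases s (n + k) with ⟨τ, p⟩
          rintro rfl; rfl
    · have := inv n
      refine iff_of_false (fun k => k n (by rw [walk_red]; exact hn)) ?_
      change (s n).2 = none at hn
      revert this hn
      rcases s n with ⟨τ, p⟩
      rintro this rfl; exact this.2
    · obtain ⟨k, k1, k2, k3⟩ := ((eventually_ge_atTop n).and ((hσ w).and (en w))).exists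
      have := inv k
      have a := st (k - n)
      rw [Nat.add_sub_cancel' k1] at a
      rw [← k2, ← k3]
      revert this a
      rcases s k with ⟨τ, p⟩
      rintro this rfl; exact (this.1 w).2
  have c' : ∀ n, ∃ p, (s n).2 = some p := fun n => by
    have := c n
    rw [walk_red] at this
    exact Option.ne_none_iff_exists'.1 this
  choose p hp using c'
  have iv : ∀ n, Inv b r d m ((s n).1, some (p n)) := fun n => by rw [← hp]; exact inv n
  have mv : ∀ n, (∃ k, p n = k :: p (n + 1)) ∨ ∃ k, p (n + 1) = k :: p n := by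
    intro n
    have a := hp (n + 1)
    rw [ss, show s n = ((s n).1, some (p n)) by rw [← hp]] at a
    simp only [gstep, target] at a
    split_ifs at a
    · left
      revert a
      rcases p n with _ | ⟨k, v⟩
      · simp [parent]
      · intro a; exact ⟨k, by rw [Option.some.inj a]⟩
    · exact Or.inr ⟨_, (Option.some.inj a).symm⟩
  have ne : ∀ w, ∀ᶠ n in atTop, p n ≠ w := fun w =>
    ((hσ w).and ((tendsto_add_atTop_nat 1).eventually (hσ w))).mono fun n hn a => by
      have := (up n w).2 (by rw [hp, a]); omega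
  have dich : ∀ w, (∀ᶠ n in atTop, w <:+ p n) ∨ ∀ᶠ n in atTop, ¬ w <:+ p n := by
    intro w
    obtain ⟨N, hN⟩ := eventually_atTop.1 (ne w)
    have : ∀ n, N ≤ n → (w <:+ p n ↔ w <:+ p N) := by
      intro n hn
      induction hn with
      | refl => rfl
      | @step n hn ih =>
        rw [← ih]
        rcases mv n with ⟨k, a⟩ | ⟨k, a⟩
        · have := hN n hn
          rw [a] at this ⊢
          simp [List.suffix_cons_iff, this.symm]
        · have := hN (n + 1) (Nat.le_succ_of_le hn)
          rw [Nat.succ_eq_add_one, a] at *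
          simp [List.suffix_cons_iff, this.symm]
    by_cases a : w <:+ p N
    · exact Or.inl (eventually_atTop.2 ⟨N, fun n hn => (this n hn).2 a⟩)
    · exact Or.inr (eventually_atTop.2 ⟨N, fun n hn k => a ((this n hn).1 k)⟩)
  have ray : ∀ w, (∀ᶠ n in atTop, w <:+ p n) → ∃ k, (∀ᶠ n in atTop, k :: w <:+ p n) ∧ r w < σ w ∧
      σ w % (b w + 1) = k + 1 ∧ cnt (tm b r d w) (σ w) + 1 = nn b r (m + 1) σ w ∧
      ent (b w) (r w) (k + 1) (σ w) + 1 = nn b r (m + 1) σ (k :: w) := by
    intro w hw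
    have : ∀ᶠ n in atTop, ∃ k, k :: w <:+ p n ∧ r w < σ w ∧
        σ w % (b w + 1) = k + 1 ∧ cnt (tm b r d w) (σ w) + 1 = nn b r (m + 1) σ w := by
      filter_upwards [hw, ne w, hσ w, en w] with n ⟨x, a1⟩ a2 a3 a4
      rcases List.eq_nil_or_concat x with rfl | ⟨y, k, rfl⟩
      · exact (a2 a1.symm).elim
      · have b1 : k :: w <:+ p n := ⟨y, by simpa using a1⟩
        have := (iv n).2.2.2 k w b1
        rw [a3, a4] at this
        exact ⟨k, b1, this⟩
    obtain ⟨n, k, -, a⟩ := this.exists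
    refine ⟨k, this.mono fun n ⟨j, b1, b2⟩ => by rwa [show k = j by omega], a.1, a.2.1, a.2.2, ?_⟩
    simp only [nn, ent]
    rw [cnt_pos (p := fun x => r w < x ∧ x % (b w + 1) = k + 1) ⟨a.1, a.2.1⟩]
  have ones : ∀ M w, (∀ᶠ n in atTop, w <:+ p n) → nn b r (m + 1) σ w = M + 1 → d w M := by
    intro M
    induction M using Nat.strong_induction_on with
    | _ M ih =>
      intro w hw hM
      by_contra hd
      refine Set.Nonempty.ne_empty ?_ (h.2 {w | (∀ᶠ n in atTop, w <:+ p n) ∧
        nn b r (m + 1) σ w = M + 1 ∧ ¬ d w M} ?_)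
      · exact ⟨w, hw, hM, hd⟩
      rintro w ⟨hw, hM, hd⟩
      obtain ⟨k, k1, k2, k3, k4, k5⟩ := ray w hw
      have e : cnt (tm b r d w) (σ w) = M := by omega
      have nt : ¬ d (k :: w) (ent (b w) (r w) (k + 1) (σ w)) := fun a =>
        hd (e ▸ (send (u := σ w) (hr w) (h.1 w) ⟨k2, Or.inr (by rw [k3]; exact a)⟩).2 (by omega))
      obtain ⟨l1, l2⟩ := reduce (hr w) (h.1 w) k2 (by omega)
      rw [k3, e] at l1 l2
      rcases l1.eq_or_lt with a | a
      · have := Nat.mod_lt (σ w) (Nat.add_one_pos (b w))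
        exact ⟨(l2 a hd).1, k, ⟨k1, by omega, a ▸ nt⟩, (l2 a hd).2, by omega⟩
      · exact (nt (ih _ a _ k1 k5.symm)).elim
  refine ⟨iff_of_true c (ones m [] (Eventually.of_forall fun _ => List.nil_suffix) rfl),
    σ, nx, fun w => ⟨le w, ?_⟩⟩
  rcases dich w with a | a
  · obtain ⟨k, k1, k2, k3, k4, k5⟩ := ray w a
    rw [cnt_pos, k4]
    exact ⟨k2, Or.inr (by rw [k3]; exact ones _ _ k1 k5.symm)⟩
  · obtain ⟨n, a1, a2, a3⟩ := (a.and ((hσ w).and (en w))).exists
    rw [← a2, ← a3]; exact (iv n).2.1 w a1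

lemma esc_iff (hr : ∀ w, r w ≤ b w) (h : Sys b r d) (m : ℕ) : esc b r m ↔ d [] m := by
  have : ∀ m, ∃ ρ, (next b)^[m] r = red b ρ ∧ Good b r d m ρ := by
    intro m
    induction m with
    | zero =>
      refine ⟨r, funext fun w => (Nat.mod_eq_of_lt (Nat.lt_succ_of_le (hr w))).symm,
        fun w => ⟨le_rfl, ?_⟩⟩
      have : ∀ (w : List ℕ) (q : ℕ → Prop), cnt (fun x => r w < x ∧ q x) (r w + 1) = 0 :=
        fun w q => by
          apply cnt_eq_zero
          rintro x hx ⟨k, -⟩
          omega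
      rcases w with _ | ⟨k, v⟩
      · exact this _ _
      · exact (this _ _).trans (this _ _).symm
    | succ m ih =>
      obtain ⟨ρ, a, g⟩ := ih
      rw [Function.iterate_succ_apply', a]
      exact (one_particle hr h g).2
  obtain ⟨ρ, a, g⟩ := this m
  rw [esc, a]; exact (one_particle hr h g).1

theorem result (b r : List ℕ → ℕ) (hr : ∀ v, r v ≤ b v) (e' : ℕ → Prop)
    (he : ∀ n, e' n → esc b r n) :
    ∃ r' : List ℕ → ℕ, (∀ v, r' v ≤ b v) ∧ ∀ n, esc b r' n ↔ e' n := by
  obtain ⟨d, hd⟩ := exists_sys b r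
  obtain ⟨r', d', h1, h2, h3⟩ := hd.down hr (e' := e') ⟨id, rfl, fun s => by simp,
    fun s hs => (esc_iff hr hd s).1 (he s hs), fun _ _ _ _ h => h⟩
  exact ⟨r', h1, fun n => by rw [esc_iff h1 h2, h3]⟩

end Pool.Agent.Results.MP_4b601f_co.Yes
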